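import Pool.Agent.helper19.HF.SpecC
import Pool.Agent.helper20.HF.PPS

/-!
# Project HF (MP_bf63dc_nt), row PPZ: popular values of `a x - b y` modulo `p` for many pairs of sets
-/

set_option autoImplicit false

namespace Pool.Agent.HF

open Finset

theorem PPZ_rp (p : ℕ) [NeZero p] (a b : ℕ) (A B : Finset ℕ) (d : ℕ) :
    rp (A.image fun x : ℕ => (a : ZMod p) * (x : ZMod p)) (B.image fun y : ℕ => -((b : ZMod p) * (y : ZMod p))) (d : ZMod p) ≤
      rdz p a b A B d := by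
  unfold rp rdz
  refine Finset.card_le_card_of_surjOn (fun z : ℕ × ℕ => (a : ZMod p) * (z.1 : ZMod p)) ?_
  intro x hx
  simp only [coe_filter, mem_image, Set.mem_setOf_eq] at hx
  obtain ⟨⟨u, hu, rfl⟩, w, hw, hab⟩ := hx
  refine ⟨(u, w), ?_, rfl⟩
  simp only [coe_filter, mem_product, Set.mem_setOf_eq]
  refine ⟨⟨hu, hw⟩, ?_⟩
  rw [← ZMod.intCast_zmod_eq_zero_iff_dvd]
  push_cast
  linear_combination hab

theorem PPZ_one (h : POL_stmt) (p : ℕ) (hp : p.Prime) (a b : ℕ) (ha : ¬ p ∣ a) (hb : ¬ p ∣ b) (A B : Finset ℕ) (t : ℕ) (l : ℝ) (ht : 1 ≤ t) (hl : l ≤ 1)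
    (hA : A ⊆ range p) (hB : B ⊆ range p) (h1 : t ≤ #A) (h2 : t ≤ #B) (h3 : l * p ≤ (#A : ℝ) + #B) :
    (t : ℝ) * (l * p - t) ≤ ∑ d ∈ range p, ((min (rdz p a b A B d) t : ℕ) : ℝ) := by
  have : Fact p.Prime := ⟨hp⟩
  have ha0 : (a : ZMod p) ≠ 0 := fun h0 => ha ((ZMod.natCast_eq_zero_iff a p).1 h0)
  have hb0 : (b : ZMod p) ≠ 0 := fun h0 => hb ((ZMod.natCast_eq_zero_iff b p).1 h0)
  have cA : #(A.image fun x : ℕ => (a : ZMod p) * (x : ZMod p)) = #A := by
    refine Finset.card_image_of_injOn ?_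
    intro x hx y hy hxy
    exact PPS_inj (mem_range.1 (hA hx)) (mem_range.1 (hA hy)) (mul_left_cancel₀ ha0 hxy)
  have cB : #(B.image fun y : ℕ => -((b : ZMod p) * (y : ZMod p))) = #B := by
    refine Finset.card_image_of_injOn ?_
    intro x hx y hy hxy
    exact PPS_inj (mem_range.1 (hB hx)) (mem_range.1 (hB hy)) (mul_left_cancel₀ hb0 (neg_injective hxy))
  have h4 := h p (A.image fun x : ℕ => (a : ZMod p) * (x : ZMod p)) (B.image fun y : ℕ => -((b : ZMod p) * (y : ZMod p))) t ht (by rw [cA]; exact h1) (by rw [cB]; exact h2)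
  rw [cA, cB, PPS_sum] at h4
  have h5 : t * min p (#A + #B - t) ≤ ∑ d ∈ range p, min (rdz p a b A B d) t := by
    refine h4.trans (Finset.sum_le_sum fun d hd => ?_)
    exact min_le_min (PPZ_rp p a b A B d) le_rfl
  have h6 : ((t * min p (#A + #B - t) : ℕ) : ℝ) ≤ ∑ d ∈ range p, ((min (rdz p a b A B d) t : ℕ) : ℝ) := by
    rw [← Nat.cast_sum]
    exact_mod_cast h5
  refine le_trans ?_ h6
  have ht0 : (0 : ℝ) ≤ t := Nat.cast_nonneg t
  have hp0 : (0 : ℝ) ≤ p := Nat.cast_nonneg p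
  rw [Nat.cast_mul]
  refine mul_le_mul_of_nonneg_left ?_ ht0
  rcases le_total p (#A + #B - t) with h7 | h7
  · rw [min_eq_left h7]
    nlinarith
  · rw [min_eq_right h7, Nat.cast_sub (by omega), Nat.cast_add]
    linarith

theorem PPZ (h : POL_stmt) : PPZ_stmt := by
  intro p a b hp ha hb ι S A B t l v hS ht hl hv hall
  have hSp : 0 < #S := Finset.card_pos.2 hS
  have hSr : (0 : ℝ) < #S := by exact_mod_cast hSp
  have htr : (0 : ℝ) < t := by exact_mod_cast ht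
  have hM : (0 : ℝ) < #S * t := mul_pos hSr htr
  -- lower bound
  have h1 : (#S : ℝ) * (t * (l * p - t)) ≤ ∑ s ∈ S, ∑ d ∈ range p, ((min (rdz p a b (A s) (B s) d) t : ℕ) : ℝ) := by
    rw [← nsmul_eq_mul]
    refine Finset.card_nsmul_le_sum S _ _ fun s hs => ?_
    obtain ⟨a1, a2, a3, a4, a5⟩ := hall s hs
    exact PPZ_one h p hp a b ha hb (A s) (B s) t l ht hl a1 a2 a3 a4 a5
  rw [Finset.sum_comm] at h1
  have h2 : ∀ d ∈ range p, ∑ s ∈ S, ((min (rdz p a b (A s) (B s) d) t : ℕ) : ℝ) ≤ v * (#S * t) +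
      (if v * (#S * t) ≤ ∑ s ∈ S, (rdz p a b (A s) (B s) d : ℝ) then (#S * t : ℝ) else 0) := by
    intro d _
    split_ifs with hc
    · have h3 : ∑ s ∈ S, ((min (rdz p a b (A s) (B s) d) t : ℕ) : ℝ) ≤ #S * t := by
        rw [← nsmul_eq_mul]
        refine Finset.sum_le_card_nsmul S _ _ fun s _ => ?_
        exact_mod_cast min_le_right _ _
      have h4 : 0 ≤ v * (#S * t) := mul_nonneg hv hM.le
      linarith
    · have h3 : ∑ s ∈ S, ((min (rdz p a b (A s) (B s) d) t : ℕ) : ℝ) ≤ ∑ s ∈ S, (rdz p a b (A s) (B s) d : ℝ) := by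
        refine Finset.sum_le_sum fun s _ => ?_
        exact_mod_cast min_le_left _ _
      linarith [not_le.1 hc]
  have h5 := h1.trans (Finset.sum_le_sum h2)
  rw [Finset.sum_add_distrib, Finset.sum_const, Finset.card_range, nsmul_eq_mul, ← Finset.sum_filter, Finset.sum_const, nsmul_eq_mul] at h5
  have h6 : (#S * t : ℝ) * ((l - v) * p - t) ≤ (#S * t : ℝ) * (#{d ∈ range p | v * (#S * t) ≤ ∑ s ∈ S, (rdz p a b (A s) (B s) d : ℝ)} : ℝ) := by
    nlinarith
  exact le_of_mul_le_mul_left h6 hM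

end Pool.Agent.HF
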